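import Pool.Agent.W188.GP.Stm

set_option autoImplicit false

open MeasureTheory Set

namespace Pool.Agent.W903.GP.CO

open Pool.Agent.W188.GP

/-- intervals of integers -/
theorem sum_int (F : ℝ → ℝ) (hF : ∀ a b : ℝ, IntervalIntegrable F volume a b) (m : ℤ) (K : ℕ) :
    ∑ n ∈ Finset.Ico m (m + (K : ℤ)), ∫ y in (n : ℝ)..((n : ℝ) + 1), F y =
      ∫ y in (m : ℝ)..((m : ℝ) + K), F y := by
  induction K with
  | zero => simp
  | succ K ih =>
    have h1 : Finset.Ico m (m + ((K + 1 : ℕ) : ℤ)) = insert (m + (K : ℤ)) (Finset.Ico m (m + (K : ℤ))) := by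
      ext x
      simp only [Finset.mem_Ico, Finset.mem_insert]
      push_cast
      omega
    rw [h1, Finset.sum_insert (by simp), ih, add_comm]
    push_cast
    rw [intervalIntegral.integral_add_adjacent_intervals (hF _ _) (hF _ _)]
    congr 1
    ring

theorem key (g : ℝ → ℝ) (hg : Continuous g) (A B : ℝ) (hAB : A ≤ B) :
    IntervalIntegrable (fun γ : ℝ => ∑ n ∈ Finset.Ioc ⌊A - γ⌋ ⌊B - γ⌋, g (n + γ)) volume 0 1 ∧
    ∫ γ in (0 : ℝ)..1, ∑ n ∈ Finset.Ioc ⌊A - γ⌋ ⌊B - γ⌋, g (n + γ) = ∫ y in A..B, g y := by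
  set F : ℝ → ℝ := (Ioc A B).indicator g with hFdef
  have hF : ∀ a b : ℝ, IntervalIntegrable F volume a b := by
    intro a b
    rw [intervalIntegrable_iff]
    have h1 : IntegrableOn g (uIoc a b) volume := (intervalIntegrable_iff).1 (hg.intervalIntegrable a b)
    exact Integrable.indicator h1 measurableSet_Ioc
  obtain ⟨m, hm⟩ : ∃ m : ℤ, m = ⌊A⌋ - 1 := ⟨_, rfl⟩
  obtain ⟨K, hK⟩ : ∃ K : ℕ, (K : ℤ) = ⌈B⌉ + 1 - m := by
    have h1 : (⌊A⌋ : ℝ) ≤ A := Int.floor_le A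
    have h2 : B ≤ ⌈B⌉ := Int.le_ceil B
    have h3 : ((⌊A⌋ : ℤ) : ℝ) ≤ (⌈B⌉ : ℤ) := by linarith
    have h4 : ⌊A⌋ ≤ ⌈B⌉ := by exact_mod_cast h3
    exact ⟨(⌈B⌉ + 1 - m).toNat, by rw [Int.toNat_of_nonneg]; omega⟩
  have hmA : (m : ℝ) ≤ A := by
    have h1 : (⌊A⌋ : ℝ) ≤ A := Int.floor_le A
    rw [hm]; push_cast; linarith
  have hMB : B ≤ (m : ℝ) + K := by
    have h2 : B ≤ ⌈B⌉ := Int.le_ceil B
    have h3 : (m : ℤ) + (K : ℤ) = ⌈B⌉ + 1 := by omega
    have h4 : (m : ℝ) + (K : ℝ) = (⌈B⌉ : ℝ) + 1 := by exact_mod_cast h3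
    linarith
  have hsum : ∀ γ ∈ Icc (0 : ℝ) 1, ∑ n ∈ Finset.Ioc ⌊A - γ⌋ ⌊B - γ⌋, g (n + γ) =
      ∑ n ∈ Finset.Ico m (m + (K : ℤ)), F (n + γ) := by
    intro γ hγ
    have h0 : ∀ n : ℤ, n ∈ Finset.Ioc ⌊A - γ⌋ ⌊B - γ⌋ ↔ (n : ℝ) + γ ∈ Ioc A B := by
      intro n
      rw [Finset.mem_Ioc, Int.floor_lt, Int.le_floor, mem_Ioc]
      constructor
      · rintro ⟨h1, h2⟩; exact ⟨by linarith, by linarith⟩
      · rintro ⟨h1, h2⟩; exact ⟨by linarith, by linarith⟩
    have hsub : Finset.Ioc ⌊A - γ⌋ ⌊B - γ⌋ ⊆ Finset.Ico m (m + (K : ℤ)) := by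
      intro n hn
      have h1 := (h0 n).1 hn
      rw [Finset.mem_Ico]
      constructor
      · have h2 : (m : ℝ) < n + 1 := by
          have h5 : (⌊A⌋ : ℝ) ≤ A := Int.floor_le A
          rw [hm]; push_cast
          have := h1.1; have := hγ.2; linarith
        have h3 : m < n + 1 := by exact_mod_cast h2
        omega
      · have h2 : (n : ℝ) < (m : ℝ) + K := by
          have h3 : (m : ℤ) + (K : ℤ) = ⌈B⌉ + 1 := by omega
          have h4 : (m : ℝ) + (K : ℝ) = (⌈B⌉ : ℝ) + 1 := by exact_mod_cast h3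
          have h5 : B ≤ ⌈B⌉ := Int.le_ceil B
          have := h1.2; have := hγ.1; linarith
        exact_mod_cast h2
    rw [← Finset.sum_subset hsub]
    · apply Finset.sum_congr rfl
      intro n hn
      rw [hFdef, indicator_of_mem ((h0 n).1 hn)]
    · intro n _ hn
      rw [hFdef, indicator_of_notMem]
      intro h; exact hn ((h0 n).2 h)
  have hterm : ∀ n : ℤ, IntervalIntegrable (fun γ : ℝ => F (n + γ)) volume 0 1 := by
    intro n
    have h1 := (hF (n : ℝ) ((n : ℝ) + 1)).comp_add_left (n : ℝ)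
    simpa using h1
  have hint : IntervalIntegrable (fun γ : ℝ => ∑ n ∈ Finset.Ico m (m + (K : ℤ)), F (n + γ)) volume 0 1 := by
    have h1 := IntervalIntegrable.sum (Finset.Ico m (m + (K : ℤ))) (f := fun (n : ℤ) (γ : ℝ) => F (n + γ))
      (μ := volume) (a := 0) (b := 1) (fun n _ => hterm n)
    have h2 : (∑ n ∈ Finset.Ico m (m + (K : ℤ)), fun γ : ℝ => F (n + γ)) =
        fun γ : ℝ => ∑ n ∈ Finset.Ico m (m + (K : ℤ)), F (n + γ) := by
      funext γ; simp
    rw [h2] at h1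
    exact h1
  refine ⟨?_, ?_⟩
  · refine hint.congr ?_
    intro γ hγ
    rw [uIoc_of_le zero_le_one] at hγ
    exact (hsum γ ⟨hγ.1.le, hγ.2⟩).symm
  · rw [intervalIntegral.integral_congr (g := fun γ : ℝ => ∑ n ∈ Finset.Ico m (m + (K : ℤ)), F (n + γ))
      (fun γ hγ => by
        rw [uIcc_of_le zero_le_one] at hγ
        exact hsum γ hγ)]
    rw [intervalIntegral.integral_finset_sum (fun n _ => hterm n)]
    have h3 : ∀ n ∈ Finset.Ico m (m + (K : ℤ)), ∫ γ in (0 : ℝ)..1, F ((n : ℝ) + γ) =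
        ∫ y in (n : ℝ)..((n : ℝ) + 1), F y := by
      intro n _
      rw [intervalIntegral.integral_comp_add_left (fun y => F y) (n : ℝ)]
      simp
    rw [Finset.sum_congr rfl h3, sum_int F hF m K]
    rw [intervalIntegral.integral_of_le (by linarith), intervalIntegral.integral_of_le hAB]
    rw [hFdef, setIntegral_indicator measurableSet_Ioc]
    congr 2
    ext y
    simp only [mem_inter_iff, mem_Ioc]
    constructor
    · rintro ⟨_, h⟩; exact h
    · rintro ⟨h1, h2⟩; exact ⟨⟨by linarith, by linarith⟩, h1, h2⟩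

theorem gp_co (h : Pool.Agent.W188.GP.StTau) : Pool.Agent.W188.GP.StCo := by
  obtain ⟨hmono, hvc, hlc, _, hder, htv, _, _, htc, _, _, _, _⟩ := h
  intro f a b hf _ hab
  have hg : Continuous (fun y : ℝ => f (tau y)) := hf.comp htc
  obtain ⟨h1, h2⟩ := key (fun y : ℝ => f (tau y)) hg (vv a) (vv b) (hmono.monotone hab)
  refine ⟨h1, ?_⟩
  unfold nd
  rw [h2]
  have h3 := intervalIntegral.integral_comp_mul_deriv (a := a) (b := b) (f := vv)
    (f' := fun t => lamE t / (2 * Real.pi)) (g := fun y : ℝ => f (tau y)) (fun t _ => hder t)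
    ((hlc.div_const _).continuousOn) hg
  rw [← h3, ← intervalIntegral.integral_const_mul]
  apply intervalIntegral.integral_congr
  intro t _
  simp only [Function.comp, htv]
  ring

end Pool.Agent.W903.GP.CO
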