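import Pool.Agent.W903.GP.NiceGroup

/-!
# The levels of the polynomial hierarchy are nice
-/

namespace Pool.Agent.W903.GP

open Pool.Agent.NPC Pool.Agent.NPC.PIso

theorem inP_iff {L : Set (List Bool)} : InP L ↔
    ∃ d : List Bool → Bool, Pool.Agent.NPC.Poly d ∧ ∀ x, x ∈ L ↔ d x = true := by
  constructor
  · rintro ⟨V, hV, h⟩
    refine ⟨fun x => decide (V x = [true]), Poly.decide_eq (poly_iff.2 hV) (pconst [true]),
      fun x => ?_⟩
    rw [h, decide_eq_true_iff]
  · rintro ⟨d, hd, h⟩
    exact ⟨fun x => [d x], polyTime_of_poly hd, fun x => by rw [h]; simp⟩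

theorem inP_compl {L : Set (List Bool)} (h : InP L) : InP Lᶜ := by
  rw [inP_iff] at h ⊢
  obtain ⟨d, hd, h⟩ := h
  exact ⟨fun x => !d x, Poly.not hd, fun x => by rw [Set.mem_compl_iff, h]; simp⟩

theorem inP_pre {L : Set (List Bool)} {f : List Bool → List Bool} (hf : Pool.Agent.NPC.Poly f)
    (h : InP L) : InP (f ⁻¹' L) := by
  rw [inP_iff] at h ⊢
  obtain ⟨d, hd, h⟩ := h
  exact ⟨fun x => d (f x), hd.comp hf, fun x => h (f x)⟩

theorem inP_inter {L L' : Set (List Bool)} (h : InP L) (h' : InP L') : InP (L ∩ L') := by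
  rw [inP_iff] at h h' ⊢
  obtain ⟨d, hd, h⟩ := h
  obtain ⟨d', hd', h'⟩ := h'
  exact ⟨fun x => d x && d' x, Poly.and hd hd', fun x => by
    rw [Set.mem_inter_iff, h, h', Bool.and_eq_true]⟩

theorem inP_union {L L' : Set (List Bool)} (h : InP L) (h' : InP L') : InP (L ∪ L') := by
  rw [inP_iff] at h h' ⊢
  obtain ⟨d, hd, h⟩ := h
  obtain ⟨d', hd', h'⟩ := h'
  exact ⟨fun x => d x || d' x, Poly.or hd hd', fun x => by
    rw [Set.mem_union, h, h', Bool.or_eq_true]⟩

/-- The levels `Σ_k` of the polynomial hierarchy. -/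
def SigmaP : ℕ → Set (List Bool) → Prop
  | 0, L => InP L
  | k + 1, L => ∃ (M : Set (List Bool)) (p : Polynomial ℕ), SigmaP k M ∧
      ∀ x : List Bool, x ∈ L ↔ ∃ w : List Bool, w.length ≤ p.eval x.length ∧ pairBits x w ∉ M

/-- The polynomial hierarchy. -/
def InPH (L : Set (List Bool)) : Prop := ∃ k, SigmaP k L

section aux

variable {α : Type} [TEnc α]

theorem poly_evalLen {x : α → List Bool} (hx : Pool.Agent.NPC.Poly x) (p : Polynomial ℕ) :
    Pool.Agent.NPC.Poly (fun a => p.eval (x a).length) :=
  UPoly.toPoly (UPoly.eval (UPoly.length hx) p)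

theorem poly_trunc {x w : α → List Bool} (hx : Pool.Agent.NPC.Poly x)
    (hw : Pool.Agent.NPC.Poly w) (p : Polynomial ℕ) :
    Pool.Agent.NPC.Poly (fun a => (w a).take (p.eval (x a).length)) :=
  Pool.Agent.NPC.Mix.T1.poly_take hw (poly_evalLen hx p)

/-- first component -/
def u1 (y : List Bool) : List Bool := (unpair y).1

/-- second component -/
def u2 (y : List Bool) : List Bool := (unpair y).2

theorem u1_pair (x w : List Bool) : u1 (pairBits x w) = x := by unfold u1; rw [unpair_pairBits]

theorem u2_pair (x w : List Bool) : u2 (pairBits x w) = w := by unfold u2; rw [unpair_pairBits]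

theorem poly_u1 {y : α → List Bool} (hy : Pool.Agent.NPC.Poly y) :
    Pool.Agent.NPC.Poly (fun a => u1 (y a)) := Poly.fst (poly_unpair.comp hy)

theorem poly_u2 {y : α → List Bool} (hy : Pool.Agent.NPC.Poly y) :
    Pool.Agent.NPC.Poly (fun a => u2 (y a)) := Poly.snd (poly_unpair.comp hy)

theorem pid : Pool.Agent.NPC.Poly (fun x : α => x) := Pool.Agent.NPC.Poly.id

end aux

theorem sigma_props (k : ℕ) :
    (∀ (L : Set (List Bool)) (f : List Bool → List Bool), Pool.Agent.NPC.Poly f → SigmaP k L →
      SigmaP k (f ⁻¹' L)) ∧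
    (∀ L L' : Set (List Bool), SigmaP k L → SigmaP k L' → SigmaP k (L ∩ L')) ∧
    (∀ L L' : Set (List Bool), SigmaP k L → SigmaP k L' → SigmaP k (L ∪ L')) := by
  induction k with
  | zero => exact ⟨fun L f hf h => inP_pre hf h, fun L L' h h' => inP_inter h h',
      fun L L' h h' => inP_union h h'⟩
  | succ k ih =>
    obtain ⟨ih1, ih2, ih3⟩ := ih
    refine ⟨?_, ?_, ?_⟩
    · rintro L f hf ⟨M, p, hM, h⟩
      obtain ⟨q, hq⟩ := length_bound hf
      refine ⟨_, p.comp q, ih1 M (fun y => pairBits (f (u1 y))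
        ((u2 y).take (p.eval (f (u1 y)).length))) ?_ hM, fun x => ?_⟩
      · exact poly_pairBits (hf.comp (poly_u1 pid)) (poly_trunc (hf.comp (poly_u1 pid))
          (poly_u2 pid) p)
      · rw [Set.mem_preimage, h]
        constructor
        · rintro ⟨w, hw, hn⟩
          refine ⟨w, ?_, ?_⟩
          · rw [Polynomial.eval_comp]
            exact hw.trans (eval_mono p (hq x))
          · rw [Set.mem_preimage, u1_pair, u2_pair, List.take_of_length_le hw]
            exact hn
        · rintro ⟨w, hw, hn⟩
          rw [Set.mem_preimage, u1_pair, u2_pair] at hn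
          exact ⟨_, by rw [List.length_take]; exact min_le_left _ _, hn⟩
    · rintro L L' ⟨M, p, hM, h⟩ ⟨M', p', hM', h'⟩
      have g1 := ih1 M (fun y => pairBits (u1 y) ((u1 (u2 y)).take (p.eval (u1 y).length)))
        (poly_pairBits (poly_u1 pid) (poly_trunc (poly_u1 pid) (poly_u1 (poly_u2 pid)) p)) hM
      have g2 := ih1 M' (fun y => pairBits (u1 y) ((u2 (u2 y)).take (p'.eval (u1 y).length)))
        (poly_pairBits (poly_u1 pid) (poly_trunc (poly_u1 pid) (poly_u2 (poly_u2 pid)) p')) hM'
      refine ⟨_, 2 * p + p' + 1, ih3 _ _ g1 g2, fun x => ?_⟩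
      rw [Set.mem_inter_iff, h, h']
      constructor
      · rintro ⟨⟨w, hw, hn⟩, ⟨w', hw', hn'⟩⟩
        refine ⟨pairBits w w', ?_, ?_⟩
        · rw [pairBits_length]
          simp only [Polynomial.eval_add, Polynomial.eval_mul, Polynomial.eval_ofNat,
            Polynomial.eval_one]
          omega
        · rw [Set.mem_union, Set.mem_preimage, Set.mem_preimage, u1_pair, u2_pair, u1_pair,
            u2_pair, List.take_of_length_le hw, List.take_of_length_le hw']
          exact not_or.2 ⟨hn, hn'⟩
      · rintro ⟨u, _, hn⟩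
        rw [Set.mem_union, Set.mem_preimage, Set.mem_preimage, u1_pair, u2_pair] at hn
        obtain ⟨hn1, hn2⟩ := not_or.1 hn
        exact ⟨⟨_, by rw [List.length_take]; exact min_le_left _ _, hn1⟩,
          ⟨_, by rw [List.length_take]; exact min_le_left _ _, hn2⟩⟩
    · rintro L L' ⟨M, p, hM, h⟩ ⟨M', p', hM', h'⟩
      have g1 := ih1 M (fun y => pairBits (u1 y) ((u1 (u2 y)).take (p.eval (u1 y).length)))
        (poly_pairBits (poly_u1 pid) (poly_trunc (poly_u1 pid) (poly_u1 (poly_u2 pid)) p)) hM
      have g2 := ih1 M' (fun y => pairBits (u1 y) ((u2 (u2 y)).take (p'.eval (u1 y).length)))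
        (poly_pairBits (poly_u1 pid) (poly_trunc (poly_u1 pid) (poly_u2 (poly_u2 pid)) p')) hM'
      refine ⟨_, 2 * p + p' + 1, ih2 _ _ g1 g2, fun x => ?_⟩
      rw [Set.mem_union, h, h']
      constructor
      · rintro (⟨w, hw, hn⟩ | ⟨w', hw', hn'⟩)
        · refine ⟨pairBits w [], ?_, ?_⟩
          · rw [pairBits_length]
            simp only [Polynomial.eval_add, Polynomial.eval_mul, Polynomial.eval_ofNat,
              Polynomial.eval_one, List.length_nil]
            omega
          · rw [Set.mem_inter_iff, Set.mem_preimage, Set.mem_preimage, u1_pair, u2_pair, u1_pair,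
              u2_pair, List.take_of_length_le hw]
            exact fun hh => hn hh.1
        · refine ⟨pairBits [] w', ?_, ?_⟩
          · rw [pairBits_length]
            simp only [Polynomial.eval_add, Polynomial.eval_mul, Polynomial.eval_ofNat,
              Polynomial.eval_one, List.length_nil]
            omega
          · rw [Set.mem_inter_iff, Set.mem_preimage, Set.mem_preimage, u1_pair, u2_pair, u1_pair,
              u2_pair, List.take_of_length_le hw']
            exact fun hh => hn' hh.2
      · rintro ⟨u, _, hn⟩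
        rw [Set.mem_inter_iff, Set.mem_preimage, Set.mem_preimage, u1_pair, u2_pair] at hn
        rcases not_and_or.1 hn with hn1 | hn2
        · exact Or.inl ⟨_, by rw [List.length_take]; exact min_le_left _ _, hn1⟩
        · exact Or.inr ⟨_, by rw [List.length_take]; exact min_le_left _ _, hn2⟩

theorem sigma_ex (k : ℕ) {L : Set (List Bool)} (r : Polynomial ℕ) (h : SigmaP (k + 1) L) :
    SigmaP (k + 1) {x | ∃ w : List Bool, w.length ≤ r.eval x.length ∧ pairBits x w ∈ L} := by
  obtain ⟨M, p, hM, h⟩ := h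
  have hv : Pool.Agent.NPC.Poly (fun y : List Bool =>
      pairBits (u1 y) ((u1 (u2 y)).take (r.eval (u1 y).length))) :=
    poly_pairBits (poly_u1 pid) (poly_trunc (poly_u1 pid) (poly_u1 (poly_u2 pid)) r)
  have g1 := (sigma_props k).1 M (fun y =>
    pairBits (pairBits (u1 y) ((u1 (u2 y)).take (r.eval (u1 y).length))) ((u2 (u2 y)).take
      (p.eval (pairBits (u1 y) ((u1 (u2 y)).take (r.eval (u1 y).length))).length)))
    (poly_pairBits hv (poly_trunc hv (poly_u2 (poly_u2 pid)) p)) hM
  refine ⟨_, 2 * r + 1 + p.comp (2 * Polynomial.X + 1 + r), g1, fun x => ?_⟩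
  constructor
  · rintro ⟨v, hv, hL⟩
    obtain ⟨w, hw, hn⟩ := (h _).1 hL
    refine ⟨pairBits v w, ?_, ?_⟩
    · rw [pairBits_length]
      have h1 : p.eval (pairBits x v).length ≤ p.eval (2 * x.length + 1 + r.eval x.length) := by
        refine eval_mono p ?_
        rw [pairBits_length]
        omega
      simp only [Polynomial.eval_add, Polynomial.eval_mul, Polynomial.eval_ofNat,
        Polynomial.eval_one, Polynomial.eval_comp, Polynomial.eval_X]
      omega
    · rw [Set.mem_preimage, u1_pair, u2_pair, u1_pair, u2_pair, List.take_of_length_le hv,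
        List.take_of_length_le hw]
      exact hn
  · rintro ⟨u, _, hn⟩
    rw [Set.mem_preimage, u1_pair, u2_pair] at hn
    refine ⟨(u1 u).take (r.eval x.length), by rw [List.length_take]; exact min_le_left _ _, ?_⟩
    rw [h]
    exact ⟨_, by rw [List.length_take]; exact min_le_left _ _, hn⟩

theorem sigma_succ {k : ℕ} {L : Set (List Bool)} (h : SigmaP k L) : SigmaP (k + 1) L := by
  induction k generalizing L with
  | zero =>
    refine ⟨_, 0, inP_pre (f := u1) (poly_u1 pid) (inP_compl h), fun x => ?_⟩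
    constructor
    · intro hx
      refine ⟨[], by simp, ?_⟩
      rw [Set.mem_preimage, u1_pair]
      exact fun hn => hn hx
    · rintro ⟨w, _, hn⟩
      rw [Set.mem_preimage, u1_pair] at hn
      exact not_not.1 hn
  | succ k ih =>
    obtain ⟨M, p, hM, h⟩ := h
    exact ⟨M, p, ih hM, h⟩

theorem sigma_mono {j k : ℕ} (hjk : j ≤ k) {L : Set (List Bool)} (h : SigmaP j L) :
    SigmaP k L := by
  induction hjk with
  | refl => exact h
  | step _ ih => exact sigma_succ ih

theorem inPSPACE_compl {L : Set (List Bool)} (h : InPSPACE L) : InPSPACE Lᶜ := by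
  obtain ⟨F, hF, h⟩ := sp_of_inPSPACE h
  exact inPSPACE_of_sp (hF.post (g := fun b : Bool => !b) (Poly.not Pool.Agent.NPC.Poly.id))
    fun x => by rw [Set.mem_compl_iff, h]; simp

theorem dropLast_bits (w : List Bool) : (valB (w ++ [true])).bits.dropLast = w := by
  have h : (valB (w ++ [true])).bits = w ++ [true] := by
    induction w with
    | nil => rfl
    | cons b w ih =>
      have h0 : valB (w ++ [true]) ≠ 0 := by
        intro h
        rw [h] at ih
        simp at ih
      rw [List.cons_append, valB_cons]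
      cases b with
      | false =>
        have e : (if false = true then 1 else 0) + 2 * valB (w ++ [true]) =
            Nat.bit false (valB (w ++ [true])) := by simp [Nat.bit]
        rw [e, Nat.bits_append_bit _ _ (fun hh => absurd hh h0), ih]
      | true =>
        have e : (if true = true then 1 else 0) + 2 * valB (w ++ [true]) =
            Nat.bit true (valB (w ++ [true])) := by simp [Nat.bit]; omega
        rw [e, Nat.bits_append_bit _ _ (by simp), ih]
  rw [h, List.dropLast_concat]

theorem inPSPACE_ex {L : Set (List Bool)} (p : Polynomial ℕ) (h : InPSPACE L) :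
    InPSPACE {x | ∃ w : List Bool, w.length ≤ p.eval x.length ∧ pairBits x w ∈ L} := by
  obtain ⟨F, hF, h⟩ := sp_of_inPSPACE h
  -- the length condition is checked as well
  have hdl : Pool.Agent.NPC.Poly (fun q : List Bool × ℕ => q.2.bits.dropLast) := by
    have h1 : Pool.Agent.NPC.Poly (fun q : List Bool × ℕ => q.2.bits) :=
      (Poly.snd Pool.Agent.NPC.Poly.id).natBits
    exact (Poly.reverse (Poly.tail (Poly.reverse h1))).congr fun q => by
      rw [List.tail_reverse, List.reverse_reverse]
  have h1 : Sp (fun q : List Bool × ℕ => decide (q.2.bits.dropLast.length ≤ p.eval q.1.length) &&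
      F (pairBits q.1 q.2.bits.dropLast)) := by
    have a1 : Sp (fun q : List Bool × ℕ => F (pairBits q.1 q.2.bits.dropLast)) :=
      hF.comp (Sp.of_poly (poly_pairBits (Poly.fst Pool.Agent.NPC.Poly.id) hdl))
    have a2 : Sp (fun q : List Bool × ℕ =>
        decide (q.2.bits.dropLast.length ≤ p.eval q.1.length)) :=
      Sp.of_poly (Poly.decide_le (Poly.length hdl)
        (poly_evalLen (Poly.fst Pool.Agent.NPC.Poly.id) p))
    exact Sp.op2 (g := fun b : Bool × Bool => b.1 && b.2) a2 a1
      (Poly.and (Poly.fst Pool.Agent.NPC.Poly.id) (Poly.snd Pool.Agent.NPC.Poly.id))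
  have hN : Pool.Agent.NPC.Poly (fun x : List Bool => 2 ^ (p.eval x.length + 1)) :=
    poly_two_pow (UPoly.add (UPoly.eval (UPoly.length Pool.Agent.NPC.Poly.id) p) (UPoly.const 1))
  have h2 : Sp (fun x : List Bool => GP.srch (fun k =>
      decide (k.bits.dropLast.length ≤ p.eval x.length) && F (pairBits x k.bits.dropLast))
      (2 ^ (p.eval x.length + 1))) :=
    Sp.srch (P := fun (x : List Bool) k =>
      decide (k.bits.dropLast.length ≤ p.eval x.length) && F (pairBits x k.bits.dropLast)) h1
      (Sp.of_poly hN)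
  have h3 : Sp (fun x : List Bool => decide (GP.srch (fun k =>
      decide (k.bits.dropLast.length ≤ p.eval x.length) && F (pairBits x k.bits.dropLast))
      (2 ^ (p.eval x.length + 1)) < 2 ^ (p.eval x.length + 1))) :=
    Sp.op2 (g := fun q : ℕ × ℕ => decide (q.1 < q.2)) h2 (Sp.of_poly hN)
      (Poly.decide_lt (Poly.fst Pool.Agent.NPC.Poly.id) (Poly.snd Pool.Agent.NPC.Poly.id))
  refine inPSPACE_of_sp h3 fun x => ?_
  rw [decide_eq_true_iff]
  constructor
  · rintro ⟨w, hw, hL⟩
    refine (srch_of (j := valB (w ++ [true])) ?_ ?_).1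
    · have a := valB_lt (w ++ [true])
      rw [List.length_append, List.length_singleton] at a
      exact lt_of_lt_of_le a (Nat.pow_le_pow_right (by norm_num) (by omega))
    · rw [dropLast_bits, Bool.and_eq_true, decide_eq_true_iff]
      exact ⟨hw, (h _).1 hL⟩
  · intro hlt
    rcases (srch_spec (fun k => decide (k.bits.dropLast.length ≤ p.eval x.length) &&
      F (pairBits x k.bits.dropLast)) (2 ^ (p.eval x.length + 1))).2.2 with h4 | h4
    · rw [Bool.and_eq_true, decide_eq_true_iff] at h4
      exact ⟨_, h4.1, (h _).2 h4.2⟩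
    · omega

theorem sigma_space {k : ℕ} {L : Set (List Bool)} (h : SigmaP k L) : InPSPACE L := by
  induction k generalizing L with
  | zero => exact inPSPACE_of_inP h
  | succ k ih =>
    obtain ⟨M, p, hM, h⟩ := h
    have h1 := inPSPACE_ex p (inPSPACE_compl (ih hM))
    have e : L = {x | ∃ w : List Bool, w.length ≤ p.eval x.length ∧ pairBits x w ∈ Mᶜ} :=
      Set.ext fun x => h x
    rw [e]
    exact h1

/-- The levels of the hierarchy, from the first one on, are nice. -/
theorem nice_sigma (k : ℕ) : Nice (SigmaP (k + 1)) where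
  ofP h := sigma_mono (Nat.zero_le _) (show SigmaP 0 _ from h)
  pre hf h := (sigma_props (k + 1)).1 _ _ hf h
  inter h h' := (sigma_props (k + 1)).2.1 _ _ h h'
  ex p h := sigma_ex k p h
  space h := sigma_space h

/-- The hierarchy is nice. -/
theorem nice_ph : Nice InPH where
  ofP h := ⟨0, h⟩
  pre := by rintro L f hf ⟨k, h⟩; exact ⟨k, (sigma_props k).1 _ _ hf h⟩
  inter := by
    rintro L L' ⟨k, h⟩ ⟨k', h'⟩
    exact ⟨max k k', (sigma_props _).2.1 _ _ (sigma_mono (le_max_left _ _) h)
      (sigma_mono (le_max_right _ _) h')⟩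
  ex := by rintro L p ⟨k, h⟩; exact ⟨k + 1, sigma_ex k p (sigma_succ h)⟩
  space := by rintro L ⟨k, h⟩; exact sigma_space h

theorem inNP_iff {L : Set (List Bool)} : InNP L ↔ SigmaP 1 L := by
  constructor
  · rintro ⟨V, p, hV, h⟩
    refine ⟨_, p, inP_compl (L := {y | V y = [true]}) ⟨V, hV, fun x => Iff.rfl⟩, fun x => ?_⟩
    rw [h]
    simp
  · rintro ⟨M, p, hM, h⟩
    obtain ⟨V, hV, h'⟩ := inP_compl (show InP M from hM)
    refine ⟨V, p, hV, fun x => ?_⟩
    rw [h]
    refine exists_congr fun w => and_congr Iff.rfl ?_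
    rw [← h', Set.mem_compl_iff]

/-- `NP` is nice. -/
theorem nice_np : Nice InNP := by
  have e : InNP = SigmaP 1 := funext fun L => propext inNP_iff
  rw [e]
  exact nice_sigma 0

end Pool.Agent.W903.GP
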