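import Pool.Agent.W903.GP.Mirror

/-!
# The groups of polynomial-time and of polynomial-space length-preserving permutations
-/

namespace Pool.Agent.W903.GP

open Pool.Agent.NPC Pool.Agent.NPC.PIso

/-- the inverse of a length-preserving polynomial-space permutation -/
theorem sp_inv (f : Equiv.Perm (List Bool)) (hlen : ∀ x, (f x).length = x.length)
    (hf : Sp ⇑f) : Sp ⇑f⁻¹ := by
  have hpow : Pool.Agent.NPC.Poly (fun x : List Bool => 2 ^ x.length) :=
    poly_pow Pool.Agent.NPC.Poly.id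
  have hpad : Pool.Agent.NPC.Poly (fun p : List Bool × ℕ => pad p.1.length p.2) :=
    poly_pad (UPoly.length (Poly.fst Pool.Agent.NPC.Poly.id)) (Poly.snd Pool.Agent.NPC.Poly.id)
  have h0 : Sp (fun p : List Bool × ℕ => f (pad p.1.length p.2)) := hf.comp (Sp.of_poly hpad)
  have h1 : Sp (fun p : List Bool × ℕ => decide (f (pad p.1.length p.2) = p.1)) :=
    Sp.op2 (g := fun p : List Bool × List Bool => decide (p.1 = p.2)) h0 (Sp.fst Sp.id)
      (Poly.decide_eq (Poly.fst Pool.Agent.NPC.Poly.id) (Poly.snd Pool.Agent.NPC.Poly.id))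
  have h2 : Sp (fun x : List Bool =>
      GP.srch (fun k => decide (f (pad x.length k) = x)) (2 ^ x.length)) :=
    Sp.srch (P := fun (x : List Bool) k => decide (f (pad x.length k) = x)) h1
      (Sp.of_poly hpow)
  refine (Sp.post (g := fun p : List Bool × ℕ => pad p.1.length p.2) (Sp.pair Sp.id h2)
    hpad).congr fun x => ?_
  have hl := inv_length f hlen x
  have h3 : valB (f⁻¹ x) < 2 ^ x.length := by
    have := valB_lt (f⁻¹ x)
    rwa [hl] at this
  have h4 : pad x.length (valB (f⁻¹ x)) = f⁻¹ x := pad_valB hl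
  have h5 := srch_of (P := fun k => decide (f (pad x.length k) = x)) h3 (by
    rw [decide_eq_true_iff, h4]
    exact f.apply_symm_apply x)
  have h6 := h5.2
  rw [decide_eq_true_iff] at h6
  change pad x.length (GP.srch (fun k => decide (f (pad x.length k) = x)) (2 ^ x.length)) = f⁻¹ x
  exact (f.symm_apply_eq.2 h6.symm).symm

theorem poly_id' : PolyTime (fun x : List Bool => x) := poly_iff.1 Pool.Agent.NPC.Poly.id

/-- The length-preserving permutations of the set of bit strings that are computable in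
polynomial time together with their inverse. -/
def GrpP : Subgroup (Equiv.Perm (List Bool)) where
  carrier := {f | (∀ x, (f x).length = x.length) ∧ PolyTime ⇑f ∧ PolyTime ⇑f⁻¹}
  mul_mem' := by
    rintro a b ⟨ha, ha1, ha2⟩ ⟨hb, hb1, hb2⟩
    refine ⟨fun x => ?_, ?_, ?_⟩
    · rw [Equiv.Perm.mul_apply, ha, hb]
    · have := (poly_iff.2 ha1).comp (poly_iff.2 hb1)
      exact poly_iff.1 this
    · have := (poly_iff.2 hb2).comp (poly_iff.2 ha2)
      rw [mul_inv_rev]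
      exact poly_iff.1 this
  one_mem' := by
    refine ⟨fun x => rfl, poly_id', ?_⟩
    rw [inv_one]
    exact poly_id'
  inv_mem' := by
    rintro a ⟨ha, ha1, ha2⟩
    refine ⟨inv_length a ha, ha2, ?_⟩
    rw [inv_inv]
    exact ha1

/-- The length-preserving permutations of the set of bit strings whose graph is in `PSPACE`. -/
def GrpS : Subgroup (Equiv.Perm (List Bool)) where
  carrier := {f | (∀ x, (f x).length = x.length) ∧ InPSPACE (graph ⇑f)}
  mul_mem' := by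
    rintro a b ⟨ha, ha1⟩ ⟨hb, hb1⟩
    refine ⟨fun x => by rw [Equiv.Perm.mul_apply, ha, hb], ?_⟩
    exact inPSPACE_graph ((sp_of_graph ha ha1).comp (sp_of_graph hb hb1))
  one_mem' := ⟨fun x => rfl, inPSPACE_graph Sp.id⟩
  inv_mem' := by
    rintro a ⟨ha, ha1⟩
    exact ⟨inv_length a ha, inPSPACE_graph (sp_inv a ha (sp_of_graph ha ha1))⟩

theorem mem_GrpP {f : Equiv.Perm (List Bool)} : f ∈ GrpP ↔
    (∀ x, (f x).length = x.length) ∧ PolyTime ⇑f ∧ PolyTime ⇑f⁻¹ := Iff.rfl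

theorem mem_GrpS {f : Equiv.Perm (List Bool)} : f ∈ GrpS ↔
    (∀ x, (f x).length = x.length) ∧ InPSPACE (graph ⇑f) := Iff.rfl

theorem GrpP_le : GrpP ≤ GrpS := by
  rintro f ⟨hf, h1, _⟩
  exact ⟨hf, inPSPACE_graph (Sp.of_poly (poly_iff.2 h1))⟩

/-- every polynomial-space length-preserving permutation is inverted by an involution -/
theorem exists_mirror {f : Equiv.Perm (List Bool)} (hf : f ∈ GrpS) :
    ∃ s ∈ GrpS, s * s = 1 ∧ s * f * s⁻¹ = f⁻¹ := by
  obtain ⟨hlen, hg⟩ := hf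
  have hinj : Function.Injective ⇑f⁻¹ := f⁻¹.injective
  have hl := inv_length f hlen
  let s : Equiv.Perm (List Bool) :=
    ⟨mir ⇑f⁻¹, mir ⇑f⁻¹, mir_mir f hlen, mir_mir f hlen⟩
  have hss : s * s = 1 := Equiv.ext fun x => mir_mir f hlen x
  refine ⟨s, ⟨mir_length hl, ?_⟩, hss, ?_⟩
  · exact inPSPACE_graph (sp_mir (sp_inv f hlen (sp_of_graph hlen hg)) hl)
  · rw [mul_inv_eq_iff_eq_mul]
    exact Equiv.ext fun x => mir_apply f hlen x

theorem GrpP_eq (h : ∀ L : Set (List Bool), InPSPACE L → InP L) : GrpP = GrpS := by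
  refine le_antisymm GrpP_le ?_
  rintro f ⟨hf, h1⟩
  have h2 := sp_of_graph hf h1
  exact ⟨hf, poly_iff.1 (poly_of_sp h h2 hf),
    poly_iff.1 (poly_of_sp h (sp_inv f hf h2) (inv_length f hf))⟩

/-- The permutations of the set of bit strings that are computable in polynomial time together
with their inverse. -/
def AutP : Subgroup (Equiv.Perm (List Bool)) where
  carrier := {f | PolyTime ⇑f ∧ PolyTime ⇑f⁻¹}
  mul_mem' := by
    rintro a b ⟨ha1, ha2⟩ ⟨hb1, hb2⟩
    refine ⟨?_, ?_⟩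
    · have := (poly_iff.2 ha1).comp (poly_iff.2 hb1)
      exact poly_iff.1 this
    · have := (poly_iff.2 hb2).comp (poly_iff.2 ha2)
      rw [mul_inv_rev]
      exact poly_iff.1 this
  one_mem' := by
    refine ⟨poly_id', ?_⟩
    rw [inv_one]
    exact poly_id'
  inv_mem' := by
    rintro a ⟨ha1, ha2⟩
    refine ⟨ha2, ?_⟩
    rw [inv_inv]
    exact ha1

theorem inP_of_ambivalent (h : ∀ f ∈ GrpP, ∃ s ∈ AutP, s * f * s⁻¹ = f⁻¹)
    {L : Set (List Bool)} (hL : InPSPACE L) : InP L := by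
  refine inP_of_conj hL fun f g hf hg h1 h2 h3 => ?_
  let F : Equiv.Perm (List Bool) := ⟨f, g, h2, h1⟩
  have hF : F ∈ GrpP := ⟨h3, poly_iff.1 hf, poly_iff.1 hg⟩
  obtain ⟨s, hs, he⟩ := h F hF
  refine ⟨⇑s, ⇑s⁻¹, poly_iff.2 hs.1, poly_iff.2 hs.2, fun y => s.symm_apply_apply y,
    fun y => ?_⟩
  rw [mul_inv_eq_iff_eq_mul] at he
  have := congrArg (fun e : Equiv.Perm (List Bool) => e y) he
  simp only [Equiv.Perm.mul_apply] at this
  exact this

/-- the main equivalences -/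
theorem main_tfae : List.TFAE [
    ∀ L : Set (List Bool), InPSPACE L ↔ InP L,
    ∀ f ∈ GrpP, ∃ s ∈ GrpP, s * f * s⁻¹ = f⁻¹,
    ∀ f ∈ GrpP, ∃ a ∈ GrpP, ∃ b ∈ GrpP, a * a = 1 ∧ b * b = 1 ∧ f = a * b,
    ∀ f ∈ GrpP, ∃ s ∈ AutP, s * f * s⁻¹ = f⁻¹,
    Nonempty (GrpP ≃* GrpS)] := by
  tfae_have 1 → 5 := by
    intro h
    rw [GrpP_eq fun L hL => (h L).1 hL]
    exact ⟨MulEquiv.refl _⟩
  tfae_have 1 → 3 := by
    intro h f hf
    rw [GrpP_eq fun L hL => (h L).1 hL] at hf ⊢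
    obtain ⟨s, hs, h1, h2⟩ := exists_mirror hf
    have hs1 : s⁻¹ = s := by rw [inv_eq_iff_mul_eq_one]; exact h1
    have h3 : f * s * (f * s) = 1 := by
      rw [hs1] at h2
      have : f * s * (f * s) = f * (s * f * s) := by group
      rw [this, h2, mul_inv_cancel]
    exact ⟨f * s, mul_mem hf hs, s, hs, h3, h1, by rw [mul_assoc, h1, mul_one]⟩
  tfae_have 3 → 2 := by
    intro h f hf
    obtain ⟨a, ha, b, hb, h1, h2, h3⟩ := h f hf
    refine ⟨a, ha, ?_⟩
    have ha1 : a⁻¹ = a := by rw [inv_eq_iff_mul_eq_one]; exact h1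
    have hb1 : b⁻¹ = b := by rw [inv_eq_iff_mul_eq_one]; exact h2
    rw [h3, mul_inv_rev, ha1, hb1, ← mul_assoc, h1, one_mul]
  tfae_have 2 → 4 := by
    intro h f hf
    obtain ⟨s, hs, he⟩ := h f hf
    exact ⟨s, hs.2, he⟩
  tfae_have 4 → 1 := fun h L => ⟨inP_of_ambivalent h, inPSPACE_of_inP⟩
  tfae_have 5 → 2 := by
    rintro ⟨φ⟩ f hf
    obtain ⟨t, ht, h1, h2⟩ := exists_mirror (φ ⟨f, hf⟩).2
    refine ⟨φ.symm ⟨t, ht⟩, (φ.symm ⟨t, ht⟩).2, ?_⟩
    have h3 : (⟨t, ht⟩ : GrpS) * φ ⟨f, hf⟩ * (⟨t, ht⟩ : GrpS)⁻¹ = (φ ⟨f, hf⟩)⁻¹ :=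
      Subtype.ext h2
    have h4 := congrArg φ.symm h3
    simp only [map_mul, map_inv, MulEquiv.symm_apply_apply] at h4
    exact congrArg Subtype.val h4
  tfae_finish

end Pool.Agent.W903.GP
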