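import Pool.Agent.W903.GP.SpLang

/-!
# The mirror of a permutation, and its computation in polynomial space
-/

namespace Pool.Agent.W903.GP

open Pool.Agent.NPC Pool.Agent.NPC.PIso

/-- the index of a smallest element in the orbit of `x` -/
def kx (g : List Bool → List Bool) (x : List Bool) : ℕ :=
  srch (fun k => decide (srch (fun j => decide (valB (g^[j] x) < valB (g^[k] x))) (2 ^ x.length) =
    2 ^ x.length)) (2 ^ x.length)

/-- the reflection of every orbit at its smallest element -/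
def mir (g : List Bool → List Bool) (x : List Bool) : List Bool := g^[2 * kx g x] x

theorem kx_spec0 (g : List Bool → List Bool) (x : List Bool) :
    ∀ j < 2 ^ x.length, valB (g^[kx g x] x) ≤ valB (g^[j] x) := by
  have hne : (Finset.range (2 ^ x.length)).Nonempty := ⟨0, by simp⟩
  obtain ⟨k, hk, hmin⟩ := Finset.exists_min_image (Finset.range (2 ^ x.length))
    (fun j => valB (g^[j] x)) hne
  rw [Finset.mem_range] at hk
  have h1 : srch (fun j => decide (valB (g^[j] x) < valB (g^[k] x))) (2 ^ x.length) =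
      2 ^ x.length := by
    obtain ⟨a1, a2, a3⟩ := srch_spec (fun j => decide (valB (g^[j] x) < valB (g^[k] x)))
      (2 ^ x.length)
    by_contra hc
    have hlt := lt_of_le_of_ne a1 hc
    rcases a3 with a3 | a3
    · rw [decide_eq_true_iff] at a3
      exact absurd (hmin _ (Finset.mem_range.2 hlt)) (not_le.2 a3)
    · exact hc a3
  have h2 := (srch_of (P := fun k => decide (srch (fun j => decide (valB (g^[j] x) <
    valB (g^[k] x))) (2 ^ x.length) = 2 ^ x.length)) hk (by rw [decide_eq_true_iff]; exact h1)).2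
  rw [decide_eq_true_iff] at h2
  intro j hj
  have h3 := (srch_spec (fun j => decide (valB (g^[j] x) < valB (g^[kx g x] x)))
    (2 ^ x.length)).2.1 j (lt_of_lt_of_eq hj h2.symm)
  rw [decide_eq_false_iff_not, not_lt] at h3
  exact h3

theorem exists_period {g : List Bool → List Bool} (hg : Function.Injective g)
    (hlen : ∀ x, (g x).length = x.length) (x : List Bool) :
    ∃ n, 0 < n ∧ n ≤ 2 ^ x.length ∧ g^[n] x = x := by
  have hl : ∀ i, (g^[i] x).length = x.length := fun i => iter_length hlen i x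
  have hlt : (Finset.range (2 ^ x.length)).card < (Finset.range (2 ^ x.length + 1)).card := by simp
  obtain ⟨i, hi, j, hj, hij, he⟩ := Finset.exists_ne_map_eq_of_card_lt_of_maps_to hlt
    (f := fun i => valB (g^[i] x)) (fun i _ => by
      rw [Finset.mem_coe, Finset.mem_range]
      have := valB_lt (g^[i] x)
      rwa [hl] at this)
  rw [Finset.mem_range] at hi hj
  have he' : g^[i] x = g^[j] x := valB_inj (by rw [hl, hl]) he
  have key : ∀ i j : ℕ, i < j → j < 2 ^ x.length + 1 → g^[i] x = g^[j] x →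
      ∃ n, 0 < n ∧ n ≤ 2 ^ x.length ∧ g^[n] x = x := by
    intro i j hij hj he
    refine ⟨j - i, by omega, by omega, ?_⟩
    have e : j = i + (j - i) := by omega
    rw [e, Function.iterate_add_apply] at he
    exact (hg.iterate i he).symm
  rcases lt_or_gt_of_ne hij with h | h
  · exact key i j h hj he'
  · exact key j i h hi he'.symm

section

variable {g : List Bool → List Bool} (hg : Function.Injective g)
  (hlen : ∀ x, (g x).length = x.length)

include hg hlen

theorem kx_spec (x : List Bool) (j : ℕ) : valB (g^[kx g x] x) ≤ valB (g^[j] x) := by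
  obtain ⟨n, h1, h2, h3⟩ := exists_period hg hlen x
  have h4 : Function.IsPeriodicPt g n x := h3
  rw [← h4.iterate_mod_apply j]
  exact kx_spec0 g x _ (lt_of_lt_of_le (Nat.mod_lt _ h1) h2)

/-- the smallest element depends only on the orbit -/
theorem min_eq (x : List Bool) (m : ℕ) : g^[kx g (g^[m] x)] (g^[m] x) = g^[kx g x] x := by
  obtain ⟨n, h1, _, h3⟩ := exists_period hg hlen x
  have hl : ∀ i, (g^[i] x).length = x.length := fun i => iter_length hlen i x
  apply valB_inj
  · rw [← Function.iterate_add_apply, hl, hl]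
  · apply le_antisymm
    · -- `x` is in the orbit of `g^[m] x`
      have h4 : Function.IsPeriodicPt g n x := h3
      have h5 : g^[n * m] x = x := by
        have := h4.mul_const m
        exact this
      have h6 : m ≤ n * m := Nat.le_mul_of_pos_left m h1
      have h7 : g^[n * m - m] (g^[m] x) = x := by
        rw [← Function.iterate_add_apply, Nat.sub_add_cancel h6, h5]
      have h8 := kx_spec hg hlen (g^[m] x) (kx g x + (n * m - m))
      rw [Function.iterate_add_apply _ (kx g x), h7] at h8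
      exact h8
    · rw [← Function.iterate_add_apply]
      exact kx_spec hg hlen x _

omit hg in
theorem mir_length (x : List Bool) : (mir g x).length = x.length :=
  iter_length hlen _ x

end

theorem zpow_neg_of_eq {α : Type} (f : Equiv.Perm α) {a b : ℤ} {m : α}
    (h : (f ^ a) m = (f ^ b) m) : (f ^ (-a)) m = (f ^ (-b)) m := by
  have := congrArg (f ^ (-a - b)) h
  rw [← Equiv.Perm.mul_apply, ← Equiv.Perm.mul_apply, ← zpow_add, ← zpow_add] at this
  have e1 : -a - b + a = -b := by ring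
  have e2 : -a - b + b = -a := by ring
  rw [e1, e2] at this
  exact this.symm

section

variable (f : Equiv.Perm (List Bool)) (hlen : ∀ x, (f x).length = x.length)

theorem iterate_inv (k : ℕ) (x : List Bool) : (⇑f⁻¹)^[k] x = (f ^ (-(k : ℤ))) x := by
  rw [Equiv.Perm.iterate_eq_pow, zpow_neg, zpow_natCast, inv_pow]

include hlen

theorem inv_length (x : List Bool) : (f⁻¹ x).length = x.length := by
  have := hlen (f⁻¹ x)
  rw [show f (f⁻¹ x) = x from f.apply_symm_apply x] at this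
  exact this.symm

omit hlen in
/-- if `M` is the smallest element of the orbit and `y = f^a M` then the mirror of `y` is
`f^(-a) M` -/
theorem mir_zpow (y : List Bool) (a : ℤ) (h : (f ^ a) ((⇑f⁻¹)^[kx ⇑f⁻¹ y] y) = y) :
    mir ⇑f⁻¹ y = (f ^ (-a)) ((⇑f⁻¹)^[kx ⇑f⁻¹ y] y) := by
  have hM : (f ^ ((kx ⇑f⁻¹ y : ℕ) : ℤ)) ((⇑f⁻¹)^[kx ⇑f⁻¹ y] y) = y := by
    rw [iterate_inv, ← Equiv.Perm.mul_apply, ← zpow_add]
    simp
  have h1 := zpow_neg_of_eq f (hM.trans h.symm)
  rw [← h1]
  unfold mir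
  rw [two_mul, Function.iterate_add_apply]
  generalize (⇑f⁻¹)^[kx ⇑f⁻¹ y] y = M
  rw [iterate_inv]

theorem mir_mir (x : List Bool) : mir ⇑f⁻¹ (mir ⇑f⁻¹ x) = x := by
  have hinj : Function.Injective ⇑f⁻¹ := f⁻¹.injective
  have hl := inv_length f hlen
  have e : mir ⇑f⁻¹ x = (⇑f⁻¹)^[2 * kx ⇑f⁻¹ x] x := rfl
  have hmin : (⇑f⁻¹)^[kx ⇑f⁻¹ (mir ⇑f⁻¹ x)] (mir ⇑f⁻¹ x) = (⇑f⁻¹)^[kx ⇑f⁻¹ x] x := by
    rw [e]
    exact min_eq hinj hl x _
  have h1 : mir ⇑f⁻¹ x = (f ^ (-((kx ⇑f⁻¹ x : ℕ) : ℤ))) ((⇑f⁻¹)^[kx ⇑f⁻¹ x] x) := by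
    apply mir_zpow f
    rw [iterate_inv, ← Equiv.Perm.mul_apply, ← zpow_add]
    simp
  have h2 := mir_zpow f (mir ⇑f⁻¹ x) (-((kx ⇑f⁻¹ x : ℕ) : ℤ)) (by rw [hmin, ← h1])
  rw [h2, hmin, iterate_inv, ← Equiv.Perm.mul_apply, ← zpow_add]
  simp

theorem mir_apply (x : List Bool) : mir ⇑f⁻¹ (f x) = f⁻¹ (mir ⇑f⁻¹ x) := by
  have hinj : Function.Injective ⇑f⁻¹ := f⁻¹.injective
  have hl := inv_length f hlen
  have hmin : (⇑f⁻¹)^[kx ⇑f⁻¹ x] x = (⇑f⁻¹)^[kx ⇑f⁻¹ (f x)] (f x) := by
    have := min_eq hinj hl (f x) 1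
    rw [Function.iterate_one, show f⁻¹ (f x) = x from f.symm_apply_apply x] at this
    exact this
  have h0 : (f ^ ((kx ⇑f⁻¹ x : ℕ) : ℤ)) ((⇑f⁻¹)^[kx ⇑f⁻¹ x] x) = x := by
    rw [iterate_inv, ← Equiv.Perm.mul_apply, ← zpow_add]
    simp
  have h1 := mir_zpow f x _ h0
  have h2 := mir_zpow f (f x) (1 + ((kx ⇑f⁻¹ x : ℕ) : ℤ)) (by
    rw [← hmin, zpow_add, Equiv.Perm.mul_apply, h0, zpow_one])
  rw [h2, ← hmin, h1, ← zpow_neg_one, ← Equiv.Perm.mul_apply, ← zpow_add, neg_add]

end

/-! ### Polynomial space -/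

theorem sp_iterate {g : List Bool → List Bool} (hg : Sp g) (hlen : ∀ x, (g x).length = x.length) :
    Sp (fun p : List Bool × ℕ => g^[p.2] p.1) := by
  refine Sp.iter (N := fun p : List Bool × ℕ => p.2) (x := fun p : List Bool × ℕ => p.1) hg
    (Sp.snd Sp.id) (Sp.fst Sp.id) (Polynomial.C 4 * Polynomial.X + 1) ?_
  intro p i _
  have h1 := sz_listBool_le (g^[i] p.1)
  rw [iter_length hlen] at h1
  have h2 := sz_listBool_ge p.1
  have h3 : sz p = sz p.1 + sz p.2 + 1 := sz_pair p.1 p.2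
  simp only [Polynomial.eval_add, Polynomial.eval_mul, Polynomial.eval_C, Polynomial.eval_X,
    Polynomial.eval_one]
  omega

theorem sp_kx {g : List Bool → List Bool} (hg : Sp g) (hlen : ∀ x, (g x).length = x.length) :
    Sp (kx g) := by
  have hit := sp_iterate hg hlen
  have hE : Sp (fun p : List Bool × ℕ => valB (g^[p.2] p.1)) :=
    hit.post (g := fun y : List Bool => valB y) (Poly.valBits Pool.Agent.NPC.Poly.id)
  have hpow : Pool.Agent.NPC.Poly (fun x : List Bool => 2 ^ x.length) :=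
    poly_pow Pool.Agent.NPC.Poly.id
  have a1 : Sp (fun p : (List Bool × ℕ) × ℕ => valB (g^[p.2] p.1.1)) :=
    hE.comp (f := fun p : (List Bool × ℕ) × ℕ => (p.1.1, p.2))
      (Sp.pair (Sp.fst (Sp.fst Sp.id)) (Sp.snd Sp.id))
  have a2 : Sp (fun p : (List Bool × ℕ) × ℕ => valB (g^[p.1.2] p.1.1)) :=
    hE.comp (f := fun p : (List Bool × ℕ) × ℕ => p.1) (Sp.fst Sp.id)
  have a3 : Sp (fun p : (List Bool × ℕ) × ℕ =>
      decide (valB (g^[p.2] p.1.1) < valB (g^[p.1.2] p.1.1))) :=
    Sp.op2 (g := fun p : ℕ × ℕ => decide (p.1 < p.2)) a1 a2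
      (Poly.decide_lt (Poly.fst Pool.Agent.NPC.Poly.id) (Poly.snd Pool.Agent.NPC.Poly.id))
  have a4 : Sp (fun p : List Bool × ℕ => 2 ^ p.1.length) :=
    (Sp.of_poly hpow).comp (Sp.fst Sp.id)
  have a5 : Sp (fun p : List Bool × ℕ =>
      srch (fun j => decide (valB (g^[j] p.1) < valB (g^[p.2] p.1))) (2 ^ p.1.length)) :=
    Sp.srch (P := fun (p : List Bool × ℕ) j => decide (valB (g^[j] p.1) < valB (g^[p.2] p.1)))
      a3 a4
  have a6 : Sp (fun p : List Bool × ℕ =>
      decide (srch (fun j => decide (valB (g^[j] p.1) < valB (g^[p.2] p.1))) (2 ^ p.1.length) =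
        2 ^ p.1.length)) :=
    Sp.op2 (g := fun p : ℕ × ℕ => decide (p.1 = p.2)) a5 a4
      (Poly.decide_eq (Poly.fst Pool.Agent.NPC.Poly.id) (Poly.snd Pool.Agent.NPC.Poly.id))
  exact Sp.srch (P := fun (x : List Bool) k =>
      decide (srch (fun j => decide (valB (g^[j] x) < valB (g^[k] x))) (2 ^ x.length) =
        2 ^ x.length)) a6 (Sp.of_poly hpow)

theorem sp_mir {g : List Bool → List Bool} (hg : Sp g) (hlen : ∀ x, (g x).length = x.length) :
    Sp (mir g) := by
  have h1 : Sp (fun x : List Bool => 2 * kx g x) :=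
    (sp_kx hg hlen).post (g := fun k : ℕ => 2 * k) (Poly.mul (pconst 2) Pool.Agent.NPC.Poly.id)
  exact (sp_iterate hg hlen).comp (f := fun x : List Bool => (x, 2 * kx g x)) (Sp.pair Sp.id h1)

end Pool.Agent.W903.GP
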