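import Pool.Agent.W903.GP.Groups

/-!
# Classes closed under polynomially bounded existential quantification
-/

namespace Pool.Agent.W903.GP

open Pool.Agent.NPC Pool.Agent.NPC.PIso

/-- The closure properties used: the class contains `P`, is contained in `PSPACE`, and is closed
under polynomial-time many-one reductions, intersections and polynomially bounded existential
quantification. -/
structure Nice (C : Set (List Bool) → Prop) : Prop where
  ofP : ∀ {L : Set (List Bool)}, InP L → C L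
  pre : ∀ {L : Set (List Bool)} {f : List Bool → List Bool}, Pool.Agent.NPC.Poly f → C L →
    C (f ⁻¹' L)
  inter : ∀ {L L' : Set (List Bool)}, C L → C L' → C (L ∩ L')
  ex : ∀ {L : Set (List Bool)} (p : Polynomial ℕ), C L →
    C {x | ∃ w : List Bool, w.length ≤ p.eval x.length ∧ pairBits x w ∈ L}
  space : ∀ {L : Set (List Bool)}, C L → InPSPACE L

section

variable {C : Set (List Bool) → Prop} (hC : Nice C) {α β : Type} [TEnc α] [TEnc β]

/-- a predicate on encodable data is in the class -/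
def CP (C : Set (List Bool) → Prop) {α : Type} [TEnc α] (P : α → Prop) : Prop :=
  ∃ L : Set (List Bool), C L ∧ ∀ a, P a ↔ bits a ∈ L

/-- rewriting codes -/
def rew {α : Type} [TEnc α] [TDec α] (f : α → List Bool) (x : List Bool) : List Bool :=
  match unbits α x with
  | none => []
  | some a => f a

omit [TEnc β] in
theorem rew_bits [TDec α] (f : α → List Bool) (a : α) : rew f (bits a) = f a := by
  unfold rew
  rw [unbits_bits]

omit [TEnc β] in
theorem poly_rew [TDec α] {f : α → List Bool} (hf : Pool.Agent.NPC.Poly f) :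
    Pool.Agent.NPC.Poly (rew f) :=
  Poly.optCases (g := fun _ : List Bool => ([] : List Bool)) (h := fun _ a => f a) poly_unbits
    (pconst []) (hf.comp (Poly.snd Pool.Agent.NPC.Poly.id))

theorem poly_bits : Pool.Agent.NPC.Poly (fun x : List Bool => (bits x : List Bool)) :=
  poly_iff.2 (polyTime_bits Pool.Agent.NPC.Poly.id)

include hC

theorem CP.of_raw {P : List Bool → Prop} (h : C {x | P x}) : CP C P := by
  refine ⟨_, hC.pre (poly_rew (f := fun x : List Bool => x)
    Pool.Agent.NPC.Poly.id) h, fun a => ?_⟩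
  rw [Set.mem_preimage, rew_bits]
  rfl

theorem CP.to_raw {P : List Bool → Prop} (h : CP C P) : C {x | P x} := by
  obtain ⟨L, h1, h2⟩ := h
  have h3 := hC.pre poly_bits h1
  have e : {x | P x} = (fun x : List Bool => (bits x : List Bool)) ⁻¹' L := Set.ext fun x => h2 x
  rw [e]
  exact h3

theorem CP.comp [TDec α] {P : β → Prop} (h : CP C P) {f : α → List Bool} {g : α → β}
    (hf : Pool.Agent.NPC.Poly f) (he : ∀ a, f a = bits (g a)) : CP C (fun a => P (g a)) := by
  obtain ⟨L, h1, h2⟩ := h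
  refine ⟨_, hC.pre (poly_rew hf) h1, fun a => ?_⟩
  rw [Set.mem_preimage, rew_bits, he]
  exact h2 _

theorem CP.and {P Q : α → Prop} (h : CP C P) (h' : CP C Q) : CP C (fun a => P a ∧ Q a) := by
  obtain ⟨L, h1, h2⟩ := h
  obtain ⟨L', h1', h2'⟩ := h'
  exact ⟨_, hC.inter h1 h1', fun a => and_congr (h2 a) (h2' a)⟩

theorem CP.poly [TDec α] {d : α → Bool} (hd : Pool.Agent.NPC.Poly d) :
    CP C (fun a => d a = true) :=
  ⟨_, hC.ofP (inPP_of (P := fun a => d a = true) hd fun _ => Iff.rfl),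
    fun a => (bits_mem_lang (P := fun a => d a = true)).symm⟩

omit hC in
theorem poly_rew2 [TDec α] : Pool.Agent.NPC.Poly (fun y : List Bool =>
    match (unbits α (unpair y).1).map (fun a => (a, (unpair y).2)) with
    | none => []
    | some p => (bits (p : α × List Bool) : List Bool)) := by
  have h0 : Pool.Agent.NPC.Poly (fun y : List Bool =>
      (unbits α (unpair y).1).map (fun a => (a, (unpair y).2))) := by
    refine Poly.optMap (o := fun y : List Bool => unbits α (unpair y).1)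
      (f := fun y a => (a, (unpair y).2)) (poly_unbits.comp (Poly.fst poly_unpair)) ?_
    exact Poly.pair (Poly.snd Pool.Agent.NPC.Poly.id)
      (Poly.snd (poly_unpair.comp (Poly.fst Pool.Agent.NPC.Poly.id)))
  refine (poly_iff.2 (polyTime_opt h0)).congr fun y => ?_
  cases (unbits α (unpair y).1).map (fun a => (a, (unpair y).2)) <;> rfl

theorem CP.ex [TDec α] {P : α × List Bool → Prop} (h : CP C P) (p : Polynomial ℕ) :
    CP C (fun a => ∃ w : List Bool, w.length ≤ p.eval (sz a) ∧ P (a, w)) := by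
  obtain ⟨L, h1, h2⟩ := h
  refine ⟨_, hC.ex p (hC.pre (poly_rew2 (α := α)) h1), fun a => ?_⟩
  constructor
  · rintro ⟨w, hw, hP⟩
    refine ⟨w, by rw [bits_length]; exact hw, ?_⟩
    rw [Set.mem_preimage, unpair_pairBits, unbits_bits]
    exact (h2 _).1 hP
  · rintro ⟨w, hw, hP⟩
    refine ⟨w, by rw [bits_length] at hw; exact hw, ?_⟩
    rw [Set.mem_preimage, unpair_pairBits, unbits_bits] at hP
    exact (h2 _).2 hP

theorem CP.graph {r : List Bool → List Bool} (h : C (graph r)) {f g : α → List Bool} [TDec α]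
    (hf : Pool.Agent.NPC.Poly f) (hg : Pool.Agent.NPC.Poly g) :
    CP C (fun a => g a = r (f a)) := by
  refine ⟨_, hC.pre (poly_rew (poly_pairBits hf hg)) h, fun a => ?_⟩
  rw [Set.mem_preimage, rew_bits, mem_graph]

theorem CP.subst [TDec α] {r : List Bool → List Bool} (h : C (GP.graph r)) {ρ : Polynomial ℕ}
    (hlen : ∀ y, (r y).length ≤ ρ.eval y.length) {Q : α → List Bool} (hQ : Pool.Agent.NPC.Poly Q)
    {P : α → List Bool → Prop} (hP : CP C (fun p : α × List Bool => P p.1 p.2)) :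
    CP C (fun a => P a (r (Q a))) := by
  obtain ⟨q, hq⟩ := hQ.sz_le
  have h1 : CP C (fun p : α × List Bool => p.2 = r (Q p.1)) :=
    CP.graph hC h (f := fun p : α × List Bool => Q p.1) (g := fun p => p.2)
      (hQ.comp (Poly.fst Pool.Agent.NPC.Poly.id)) (Poly.snd Pool.Agent.NPC.Poly.id)
  obtain ⟨L, k1, k2⟩ := CP.ex hC (CP.and hC h1 hP) (ρ.comp q)
  refine ⟨L, k1, fun a => ?_⟩
  rw [← k2]
  constructor
  · intro hp
    refine ⟨r (Q a), ?_, rfl, hp⟩
    rw [Polynomial.eval_comp]
    refine (hlen _).trans (eval_mono ρ ?_)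
    have := hq a
    have := sz_listBool_ge (Q a)
    omega
  · rintro ⟨w, _, hw, hp⟩
    change w = r (Q a) at hw
    subst hw
    exact hp

end

/-! ### The jump in terms of the answers -/

section

variable (κ : ℕ → ℕ)

/-- the value of the probe, given the answer `y` -/
def probeA (d : List Bool) (j : ℕ) (y : List Bool) : Bool × List Bool × ℕ :=
  (decide (hgt (κ d.length) (2 ^ d.length) (clk y) = 0), cnt y,
    if clk y + j < 32 * 2 ^ d.length then clk y + j else clk y + j - 32 * 2 ^ d.length)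

/-- the partner cycle and the centre, given the answers -/
def baseA (d y1 y2 y3 : List Bool) : List Bool × ℕ :=
  bif (probeA κ d (20 * 2 ^ d.length) y1).1 then (probeA κ d (20 * 2 ^ d.length) y1).2 else
    bif (probeA κ d (24 * 2 ^ d.length) y2).1 then (probeA κ d (24 * 2 ^ d.length) y2).2 else
      (probeA κ d (28 * 2 ^ d.length) y3).2

/-- the second question -/
def askA (p : List Bool × ℕ) (c : ℕ) : List Bool := GP.st p.1 (rot (2 ^ p.1.length) p.2 c)

/-- the content at the top, given the answers -/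
def topsA (p : List Bool × ℕ) (z1 z2 z3 : List Bool) : List Bool :=
  bif free κ p (4 * 2 ^ p.1.length) then cnt z1 else
    bif free κ p (8 * 2 ^ p.1.length) then cnt z2 else cnt z3

theorem base_eq (r : List Bool → List Bool) (d : List Bool) : base r κ d =
    baseA κ d (r (GP.st d (20 * 2 ^ d.length))) (r (GP.st d (24 * 2 ^ d.length)))
      (r (GP.st d (28 * 2 ^ d.length))) := rfl

theorem tops_eq (s : List Bool → List Bool) (p : List Bool × ℕ) : tops s κ p =
    topsA κ p (s (askA p (4 * 2 ^ p.1.length))) (s (askA p (8 * 2 ^ p.1.length)))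
      (s (askA p (16 * 2 ^ p.1.length))) := rfl

variable {κ} {α : Type} [TEnc α]

theorem poly_probeA (hκ : Pool.Agent.NPC.Poly (fun d : List Bool => κ d.length))
    {d y : α → List Bool} {j : α → ℕ} (hd : Pool.Agent.NPC.Poly d) (hj : Pool.Agent.NPC.Poly j)
    (hy : Pool.Agent.NPC.Poly y) :
    Pool.Agent.NPC.Poly (fun a => probeA κ (d a) (j a) (y a)) := by
  have h1 : Pool.Agent.NPC.Poly (fun a => κ (d a).length) := hκ.comp hd
  have h2 := poly_clk hy
  have h3 := poly_cnt hy
  have h4 := Poly.mul (pconst 32) (poly_pow hd)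
  unfold probeA
  exact Poly.pair (Poly.dec_eq (poly_hgt h1 (poly_pow hd) h2) (pconst 0)) (Poly.pair h3
    (Poly.ite (Poly.decide_lt (Poly.add h2 hj) h4) (Poly.add h2 hj)
      (Poly.sub (Poly.add h2 hj) h4)))

theorem poly_baseA (hκ : Pool.Agent.NPC.Poly (fun d : List Bool => κ d.length))
    {d y1 y2 y3 : α → List Bool} (hd : Pool.Agent.NPC.Poly d) (h1 : Pool.Agent.NPC.Poly y1)
    (h2 : Pool.Agent.NPC.Poly y2) (h3 : Pool.Agent.NPC.Poly y3) :
    Pool.Agent.NPC.Poly (fun a => baseA κ (d a) (y1 a) (y2 a) (y3 a)) := by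
  have k1 := poly_probeA hκ hd (Poly.mul (pconst 20) (poly_pow hd)) h1
  have k2 := poly_probeA hκ hd (Poly.mul (pconst 24) (poly_pow hd)) h2
  have k3 := poly_probeA hκ hd (Poly.mul (pconst 28) (poly_pow hd)) h3
  unfold baseA
  exact Poly.cond (Poly.fst k1) (Poly.snd k1) (Poly.cond (Poly.fst k2) (Poly.snd k2) (Poly.snd k3))

theorem poly_askA {p : α → List Bool × ℕ} {c : α → ℕ} (hp : Pool.Agent.NPC.Poly p)
    (hc : Pool.Agent.NPC.Poly c) : Pool.Agent.NPC.Poly (fun a => askA (p a) (c a)) := by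
  unfold askA
  exact poly_st (Poly.fst hp) (poly_rot (poly_pow (Poly.fst hp)) (Poly.snd hp) hc)

theorem poly_topsA (hκ : Pool.Agent.NPC.Poly (fun d : List Bool => κ d.length))
    {p : α → List Bool × ℕ} {z1 z2 z3 : α → List Bool} (hp : Pool.Agent.NPC.Poly p)
    (h1 : Pool.Agent.NPC.Poly z1) (h2 : Pool.Agent.NPC.Poly z2) (h3 : Pool.Agent.NPC.Poly z3) :
    Pool.Agent.NPC.Poly (fun a => topsA κ (p a) (z1 a) (z2 a) (z3 a)) := by
  have k1 := poly_pow (Poly.fst hp)
  unfold topsA
  exact Poly.cond (poly_free hκ hp (Poly.mul (pconst 4) k1)) (poly_cnt h1)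
    (Poly.cond (poly_free hκ hp (Poly.mul (pconst 8) k1)) (poly_cnt h2) (poly_cnt h3))

theorem cp_jump {C : Set (List Bool) → Prop} (hC : Nice C)
    (hκ : Pool.Agent.NPC.Poly (fun d : List Bool => κ d.length)) {r s : List Bool → List Bool}
    {ρ ρ' : Polynomial ℕ} (hr : C (graph r)) (hrl : ∀ y, (r y).length ≤ ρ.eval y.length)
    (hs : C (graph s)) (hsl : ∀ y, (s y).length ≤ ρ'.eval y.length) {D : List Bool → List Bool}
    (hD : Pool.Agent.NPC.Poly D) {A : List Bool → Bool} (hA : Pool.Agent.NPC.Poly A) :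
    C {x | A (jump r s κ (D x)) = true} := by
  refine CP.to_raw hC ?_
  -- the predicate in terms of all answers
  have e1 : ∀ {β : Type} [TEnc β], Pool.Agent.NPC.Poly (fun p : β × List Bool => p.1) :=
    Poly.fst Pool.Agent.NPC.Poly.id
  have e2 : ∀ {β : Type} [TEnc β], Pool.Agent.NPC.Poly (fun p : β × List Bool => p.2) :=
    Poly.snd Pool.Agent.NPC.Poly.id
  have hb : Pool.Agent.NPC.Poly (fun p : ((List Bool × List Bool) × List Bool) × List Bool =>
      baseA κ (D p.1.1.1) p.1.1.2 p.1.2 p.2) :=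
    poly_baseA hκ (hD.comp (e1.comp (e1.comp e1))) (e2.comp (e1.comp e1)) (e2.comp e1) e2
  have hpw : Pool.Agent.NPC.Poly (fun p : ((List Bool × List Bool) × List Bool) × List Bool =>
      2 ^ (baseA κ (D p.1.1.1) p.1.1.2 p.1.2 p.2).1.length) := poly_pow (Poly.fst hb)
  have c0 : CP C (fun q : (((((List Bool × List Bool) × List Bool) × List Bool) × List Bool) ×
      List Bool) × List Bool =>
      A (topsA κ (baseA κ (D q.1.1.1.1.1.1) q.1.1.1.1.1.2 q.1.1.1.1.2 q.1.1.1.2)
        q.1.1.2 q.1.2 q.2) = true) := by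
    refine CP.poly hC (hA.comp (poly_topsA hκ ?_ (e2.comp (e1.comp e1)) (e2.comp e1) e2))
    exact hb.comp (e1.comp (e1.comp e1))
  have c1 := CP.subst hC hs hsl
    (Q := fun q : ((((List Bool × List Bool) × List Bool) × List Bool) × List Bool) × List Bool =>
      askA (baseA κ (D q.1.1.1.1.1) q.1.1.1.1.2 q.1.1.1.2 q.1.1.2)
        (16 * 2 ^ (baseA κ (D q.1.1.1.1.1) q.1.1.1.1.2 q.1.1.1.2 q.1.1.2).1.length))
    (P := fun q z => A (topsA κ (baseA κ (D q.1.1.1.1.1) q.1.1.1.1.2 q.1.1.1.2 q.1.1.2)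
        q.1.2 q.2 z) = true)
    (poly_askA (hb.comp (e1.comp e1)) (Poly.mul (pconst 16) (hpw.comp (e1.comp e1)))) c0
  have c2 := CP.subst hC hs hsl
    (Q := fun q : (((List Bool × List Bool) × List Bool) × List Bool) × List Bool =>
      askA (baseA κ (D q.1.1.1.1) q.1.1.1.2 q.1.1.2 q.1.2)
        (8 * 2 ^ (baseA κ (D q.1.1.1.1) q.1.1.1.2 q.1.1.2 q.1.2).1.length))
    (P := fun q z => A (topsA κ (baseA κ (D q.1.1.1.1) q.1.1.1.2 q.1.1.2 q.1.2) q.2 z
      (s (askA (baseA κ (D q.1.1.1.1) q.1.1.1.2 q.1.1.2 q.1.2)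
        (16 * 2 ^ (baseA κ (D q.1.1.1.1) q.1.1.1.2 q.1.1.2 q.1.2).1.length)))) = true)
    (poly_askA (hb.comp e1) (Poly.mul (pconst 8) (hpw.comp e1))) c1
  have c3 := CP.subst hC hs hsl
    (Q := fun q : ((List Bool × List Bool) × List Bool) × List Bool =>
      askA (baseA κ (D q.1.1.1) q.1.1.2 q.1.2 q.2)
        (4 * 2 ^ (baseA κ (D q.1.1.1) q.1.1.2 q.1.2 q.2).1.length))
    (P := fun q z => A (topsA κ (baseA κ (D q.1.1.1) q.1.1.2 q.1.2 q.2) z
      (s (askA (baseA κ (D q.1.1.1) q.1.1.2 q.1.2 q.2)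
        (8 * 2 ^ (baseA κ (D q.1.1.1) q.1.1.2 q.1.2 q.2).1.length)))
      (s (askA (baseA κ (D q.1.1.1) q.1.1.2 q.1.2 q.2)
        (16 * 2 ^ (baseA κ (D q.1.1.1) q.1.1.2 q.1.2 q.2).1.length)))) = true)
    (poly_askA hb (Poly.mul (pconst 4) hpw)) c2
  have c3' : CP C (fun q : ((List Bool × List Bool) × List Bool) × List Bool =>
      A (tops s κ (baseA κ (D q.1.1.1) q.1.1.2 q.1.2 q.2)) = true) := c3
  have hst : ∀ m : ℕ, Pool.Agent.NPC.Poly (fun x : List Bool =>
      GP.st (D x) (m * 2 ^ (D x).length)) :=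
    fun m => poly_st hD (Poly.mul (pconst m) (poly_pow hD))
  have c4 := CP.subst hC hr hrl
    (Q := fun q : (List Bool × List Bool) × List Bool =>
      GP.st (D q.1.1) (28 * 2 ^ (D q.1.1).length))
    (P := fun q y => A (tops s κ (baseA κ (D q.1.1) q.1.2 q.2 y)) = true)
    ((hst 28).comp (e1.comp e1)) c3'
  have c5 := CP.subst hC hr hrl
    (Q := fun q : List Bool × List Bool => GP.st (D q.1) (24 * 2 ^ (D q.1).length))
    (P := fun q y => A (tops s κ (baseA κ (D q.1) q.2 y
      (r (GP.st (D q.1) (28 * 2 ^ (D q.1).length))))) = true)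
    ((hst 24).comp e1) c4
  have c6 := CP.subst hC hr hrl
    (Q := fun q : List Bool => GP.st (D q) (20 * 2 ^ (D q).length))
    (P := fun q y => A (tops s κ (baseA κ (D q) y (r (GP.st (D q) (24 * 2 ^ (D q).length)))
      (r (GP.st (D q) (28 * 2 ^ (D q).length))))) = true)
    (hst 20) c5
  exact c6

end

/-- **Main lemma** for nice classes. -/
theorem mem_of_conj {C : Set (List Bool) → Prop} (hC : Nice C) {L : Set (List Bool)}
    (hL : InPSPACE L)
    (hconj : ∀ f g : List Bool → List Bool, Pool.Agent.NPC.Poly f → Pool.Agent.NPC.Poly g →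
      (∀ y, f (g y) = y) → (∀ y, g (f y) = y) → (∀ y, (f y).length = y.length) →
      ∃ (r s : List Bool → List Bool) (ρ ρ' : Polynomial ℕ), C (graph r) ∧ C (graph s) ∧
        (∀ y, s (r y) = y) ∧ (∀ y, (r y).length ≤ ρ.eval y.length) ∧
        (∀ y, (s y).length ≤ ρ'.eval y.length) ∧ ∀ y, r (f y) = g (r y)) :
    C L := by
  obtain ⟨D⟩ := exists_sys hL
  have D := D.toPerm
  obtain ⟨r, s, ρ, ρ', hr, hs, hsr, hlen, hslen, hc⟩ := hconj (fw (cT D) (cTi D) kap)
    (bw (cT D) (cTi D) kap)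
    (poly_fw (poly_cT D) (poly_cTi D) poly_kap) (poly_bw (poly_cT D) (poly_cTi D) poly_kap)
    (fw_bw (cT_cTi D) (cTi_cT D) (cT_length D) (cTi_length D))
    (bw_fw (cT_cTi D) (cTi_cT D) (cT_length D) (cTi_length D))
    (fw_length (cT_length D) (cTi_length D))
  have hj := jump_eq (r := r) (s := s) (cT_cTi D) (cTi_cT D) (cT_length D) (cTi_length D)
    kap_le hc hsr
  have h1 := cp_jump hC poly_kap hr hlen hs hslen (D := fun x => sc (D.start x) 0)
    (poly_sc D.poly_start (pconst 0)) (A := fun y => D.acc (cc y))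
    (D.poly_acc.comp (poly_cc Pool.Agent.NPC.Poly.id))
  have e : L = {x | D.acc (cc (jump r s kap (sc (D.start x) 0))) = true} := by
    ext x
    rw [mem_iff_final D x, Set.mem_ofPred_eq, hj]
  rw [e]
  exact h1

end Pool.Agent.W903.GP
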