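import Pool.Agent.W903.GP.Nice

/-!
# The group of a nice class
-/

namespace Pool.Agent.W903.GP

open Pool.Agent.NPC Pool.Agent.NPC.PIso

section

variable {C : Set (List Bool) → Prop} (hC : Nice C)

/-- the test that a string is a pair -/
def isPair (z : List Bool) : Bool := decide (z = pairBits (unpair z).1 (unpair z).2)

theorem poly_isPair : Pool.Agent.NPC.Poly isPair :=
  Poly.decide_eq Pool.Agent.NPC.Poly.id
    (poly_pairBits (Poly.fst poly_unpair) (Poly.snd poly_unpair))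

theorem isPair_pairBits (x w : List Bool) : isPair (pairBits x w) = true := by
  unfold isPair
  rw [unpair_pairBits]
  simp

theorem graph_eq (f : List Bool → List Bool) :
    graph f = {z | isPair z = true ∧ (unpair z).2 = f (unpair z).1} := by
  ext z
  constructor
  · rintro ⟨x, rfl⟩
    exact ⟨isPair_pairBits _ _, by rw [unpair_pairBits]⟩
  · rintro ⟨h1, h2⟩
    unfold isPair at h1
    rw [decide_eq_true_iff] at h1
    exact ⟨(unpair z).1, by rw [← h2]; exact h1⟩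

include hC

theorem c_graph {f : List Bool → List Bool}
    (h : CP C (fun z : List Bool => (unpair z).2 = f (unpair z).1)) : C (graph f) := by
  rw [graph_eq]
  exact CP.to_raw hC (CP.and hC (CP.poly hC poly_isPair) h)

theorem c_graph_poly {f : List Bool → List Bool} (h : Pool.Agent.NPC.Poly f) : C (graph f) := by
  refine c_graph hC ?_
  obtain ⟨L, h1, h2⟩ := CP.poly hC (d := fun z : List Bool =>
    decide ((unpair z).2 = f (unpair z).1))
    (Poly.decide_eq (Poly.snd poly_unpair) (h.comp (Poly.fst poly_unpair)))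
  exact ⟨L, h1, fun a => by rw [← h2]; exact decide_eq_true_iff.symm⟩

theorem c_graph_comp {a b : List Bool → List Bool} (ha : C (graph a)) (hb : C (graph b))
    {ρ : Polynomial ℕ} (hbl : ∀ x, (b x).length ≤ ρ.eval x.length) : C (graph (fun x => a (b x))) := by
  refine c_graph hC ?_
  refine CP.subst hC hb hbl (Q := fun z : List Bool => (unpair z).1)
    (P := fun z y => (unpair z).2 = a y) (Poly.fst poly_unpair) ?_
  exact CP.graph hC ha (f := fun p : List Bool × List Bool => p.2)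
    (g := fun p => (unpair p.1).2) (Poly.snd Pool.Agent.NPC.Poly.id)
    (Poly.snd (poly_unpair.comp (Poly.fst Pool.Agent.NPC.Poly.id)))

theorem c_graph_inv {f : Equiv.Perm (List Bool)} (hf : C (graph ⇑f)) : C (graph ⇑f⁻¹) := by
  refine c_graph hC ?_
  obtain ⟨L, h1, h2⟩ := CP.graph hC hf (f := fun z : List Bool => (unpair z).2)
    (g := fun z => (unpair z).1) (Poly.snd poly_unpair) (Poly.fst poly_unpair)
  refine ⟨L, h1, fun a => ?_⟩
  rw [← h2]
  change (unpair a).2 = f.symm (unpair a).1 ↔ (unpair a).1 = f (unpair a).2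
  rw [eq_comm, Equiv.symm_apply_eq]

end

/-- The group of the length-preserving permutations whose graph is in the class. -/
def GrpC (C : Set (List Bool) → Prop) (hC : Nice C) : Subgroup (Equiv.Perm (List Bool)) where
  carrier := {f | (∀ x, (f x).length = x.length) ∧ C (graph ⇑f)}
  mul_mem' := by
    rintro a b ⟨ha, ha1⟩ ⟨hb, hb1⟩
    have h : C (graph (fun x => a (b x))) :=
      c_graph_comp hC ha1 hb1 (ρ := Polynomial.X) (fun x => by rw [hb, Polynomial.eval_X])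
    exact ⟨fun x => by rw [Equiv.Perm.mul_apply, ha, hb], h⟩
  one_mem' := ⟨fun x => rfl, c_graph_poly hC Pool.Agent.NPC.Poly.id⟩
  inv_mem' := by
    rintro a ⟨ha, ha1⟩
    exact ⟨inv_length a ha, c_graph_inv hC ha1⟩

/-- The group of the permutations `f` such that the graph is in the class and the lengths of
`f x` and `f⁻¹ x` are polynomially bounded in the length of `x`. -/
def AutC (C : Set (List Bool) → Prop) (hC : Nice C) : Subgroup (Equiv.Perm (List Bool)) where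
  carrier := {f | (∃ ρ : Polynomial ℕ, ∀ x, (f x).length ≤ ρ.eval x.length ∧
    (f⁻¹ x).length ≤ ρ.eval x.length) ∧ C (graph ⇑f)}
  mul_mem' := by
    rintro a b ⟨⟨p, ha⟩, ha1⟩ ⟨⟨q, hb⟩, hb1⟩
    have h : C (graph (fun x => a (b x))) := c_graph_comp hC ha1 hb1 (fun x => (hb x).1)
    refine ⟨⟨p.comp q + q.comp p, fun x => ⟨?_, ?_⟩⟩, h⟩
    · rw [Equiv.Perm.mul_apply, Polynomial.eval_add, Polynomial.eval_comp]
      exact ((ha _).1.trans (eval_mono p (hb x).1)).trans (Nat.le_add_right _ _)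
    · rw [mul_inv_rev, Equiv.Perm.mul_apply, Polynomial.eval_add, Polynomial.eval_comp,
        Polynomial.eval_comp]
      exact ((hb _).2.trans (eval_mono q (ha x).2)).trans (Nat.le_add_left _ _)
  one_mem' := ⟨⟨Polynomial.X, fun x => by rw [Polynomial.eval_X]; exact ⟨le_rfl, le_rfl⟩⟩,
    c_graph_poly hC Pool.Agent.NPC.Poly.id⟩
  inv_mem' := by
    rintro a ⟨⟨p, ha⟩, ha1⟩
    exact ⟨⟨p, fun x => ⟨(ha x).2, by rw [inv_inv]; exact (ha x).1⟩⟩, c_graph_inv hC ha1⟩

theorem GrpC_le_AutC {C : Set (List Bool) → Prop} (hC : Nice C) : GrpC C hC ≤ AutC C hC := by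
  rintro f ⟨hf, h1⟩
  refine ⟨⟨Polynomial.X, fun x => ?_⟩, h1⟩
  rw [Polynomial.eval_X]
  exact ⟨(hf x).le, (inv_length f hf x).le⟩

theorem GrpC_eq {C : Set (List Bool) → Prop} (hC : Nice C)
    (h : ∀ L : Set (List Bool), InPSPACE L → C L) : GrpC C hC = GrpS :=
  le_antisymm (fun _ hf => ⟨hf.1, hC.space hf.2⟩) fun _ hf => ⟨hf.1, h _ hf.2⟩

theorem c_of_mixed {C : Set (List Bool) → Prop} (hC : Nice C)
    (h : ∀ f ∈ GrpP, ∃ s ∈ AutC C hC, s * f * s⁻¹ = f⁻¹)
    {L : Set (List Bool)} (hL : InPSPACE L) : C L := by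
  refine mem_of_conj hC hL fun f g hf hg h1 h2 h3 => ?_
  let F : Equiv.Perm (List Bool) := ⟨f, g, h2, h1⟩
  have hF : F ∈ GrpP := ⟨h3, poly_iff.1 hf, poly_iff.1 hg⟩
  obtain ⟨s, hs, he⟩ := h F hF
  obtain ⟨⟨p, hp⟩, hsC⟩ := hs
  refine ⟨⇑s, ⇑s⁻¹, p, p, hsC, c_graph_inv hC hsC, fun y => s.symm_apply_apply y,
    fun y => (hp y).1, fun y => (hp y).2, fun y => ?_⟩
  rw [mul_inv_eq_iff_eq_mul] at he
  have := congrArg (fun e : Equiv.Perm (List Bool) => e y) he
  simp only [Equiv.Perm.mul_apply] at this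
  exact this

theorem GrpP_le_GrpC {C : Set (List Bool) → Prop} (hC : Nice C) : GrpP ≤ GrpC C hC := by
  rintro f ⟨hf, h1, _⟩
  exact ⟨hf, c_graph_poly hC (poly_iff.2 h1)⟩

/-- the main equivalences for a nice class -/
theorem nice_tfae {C : Set (List Bool) → Prop} (hC : Nice C) : List.TFAE [
    ∀ L : Set (List Bool), InPSPACE L ↔ C L,
    ∀ f ∈ GrpC C hC, ∃ s ∈ GrpC C hC, s * f * s⁻¹ = f⁻¹,
    ∀ f ∈ GrpC C hC, ∃ a ∈ GrpC C hC, ∃ b ∈ GrpC C hC, a * a = 1 ∧ b * b = 1 ∧ f = a * b,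
    ∀ f ∈ GrpP, ∃ s ∈ AutC C hC, s * f * s⁻¹ = f⁻¹,
    Nonempty (GrpC C hC ≃* GrpS)] := by
  tfae_have 1 → 5 := by
    intro h
    rw [GrpC_eq hC fun L hL => (h L).1 hL]
    exact ⟨MulEquiv.refl _⟩
  tfae_have 1 → 3 := by
    intro h f hf
    rw [GrpC_eq hC fun L hL => (h L).1 hL] at hf ⊢
    obtain ⟨s, hs, h1, h2⟩ := exists_mirror hf
    have hs1 : s⁻¹ = s := by rw [inv_eq_iff_mul_eq_one]; exact h1
    have h3 : f * s * (f * s) = 1 := by
      rw [hs1] at h2
      have : f * s * (f * s) = f * (s * f * s) := by group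
      rw [this, h2, mul_inv_cancel]
    exact ⟨f * s, mul_mem hf hs, s, hs, h3, h1, by rw [mul_assoc, h1, mul_one]⟩
  tfae_have 3 → 2 := by
    intro h f hf
    obtain ⟨a, ha, b, hb, h1, h2, h3⟩ := h f hf
    refine ⟨a, ha, ?_⟩
    have ha1 : a⁻¹ = a := by rw [inv_eq_iff_mul_eq_one]; exact h1
    have hb1 : b⁻¹ = b := by rw [inv_eq_iff_mul_eq_one]; exact h2
    rw [h3, mul_inv_rev, ha1, hb1, ← mul_assoc, h1, one_mul]
  tfae_have 2 → 4 := by
    intro h f hf
    obtain ⟨s, hs, he⟩ := h f (GrpP_le_GrpC hC hf)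
    exact ⟨s, GrpC_le_AutC hC hs, he⟩
  tfae_have 4 → 1 := fun h L => ⟨c_of_mixed hC h, hC.space⟩
  tfae_have 5 → 2 := by
    rintro ⟨φ⟩ f hf
    obtain ⟨t, ht, h1, h2⟩ := exists_mirror (φ ⟨f, hf⟩).2
    refine ⟨φ.symm ⟨t, ht⟩, (φ.symm ⟨t, ht⟩).2, ?_⟩
    have h3 : (⟨t, ht⟩ : GrpS) * φ ⟨f, hf⟩ * (⟨t, ht⟩ : GrpS)⁻¹ = (φ ⟨f, hf⟩)⁻¹ :=
      Subtype.ext h2
    have h4 := congrArg φ.symm h3
    simp only [map_mul, map_inv, MulEquiv.symm_apply_apply] at h4
    exact congrArg Subtype.val h4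
  tfae_finish

end Pool.Agent.W903.GP
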